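import Pool.Agent.Lib.KA.Alg
import Pool.Agent.Lib.KT.Top
import Pool.Agent.Lib.DK.All
import Pool.Agent.Lib.KBO.Inf

/-! Project kb: the core theorem from the rows. -/

open scoped Classical Topology ENNReal
open Set MeasureTheory Complex Filter

noncomputable section

namespace Pool.Agent.Lib.KA

open Pool.Agent.Lib.HS32 Pool.Agent.Lib.HLK Pool.Agent.Lib.KH Pool.Agent.Lib.KBE
open Pool.Agent.Lib.KC Pool.Agent.Lib.KT
open Pool.Agent.Lib.K3S (Dk)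
open Pool.Agent.Lib.K3E (Tw)

variable {n : ℕ} {M : Mf n}

theorem dom {B : Bs M} {N : M.X → ℝ} [M.Cpt] (h : DK.Rho M B.H B.O N) : B.Dom N := by
  obtain ⟨δ, α, C, h1, h2, ρ, h3, h4⟩ := h
  exact ⟨δ, α, C, h1, h2, fun i => 1 / (i + 1 : ℝ), ρ, fun i => ⟨Nat.one_div_pos_of_nat.le,
    (h3 i).1, (h3 i).2.2.1, (h3 i).2.1, (h3 i).2.2.2⟩, tendsto_one_div_add_atTop_nhds_zero_nat,
    fun y hy => (h4 {y} isCompact_singleton (singleton_subset_iff.2 hy)).mono fun _ k => k y rfl⟩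

theorem good (hA : HS.St_AUBIN) (hRK : St_RK) (hFIB : St_FIB) (hRAT : KT.St_RAT) (hVAL : St_VAL)
    (hEX1 : St_EX1) [M.Cpt] {I : Type} [Fintype I] (D : Dk M I) {A : Subalgebra ℂ (M.X → ℂ)}
    {F : Type} [Field F] [Algebra ℂ F] {ev : A →ₐ[ℂ] F} (hF : Fm D.H A ev) {b : Ba M D.H}
    (hb : b.O ⊆ KBO.of D) (h : b.Ok) {G : ℕ → ℕ → Submodule ℂ F} {R : Subalgebra ℂ F}
    {fn : R →ₐ[ℂ] (M.X → ℂ)} (m : b.Md ev G R fn) : Good (b.bs h) (b.fd h m) := by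
  have hH := D.kae.toMet
  refine ⟨fun k w t z ht hz hi => ?_, fun ι _ _ g hg hi => ⟨?_, ?_⟩⟩
  · choose a ha using m.rep
    obtain ⟨r, h0⟩ := (m.mem 0 1 0).1 (zero_mem _)
    obtain ⟨x, hx⟩ := (hRK n M D.H A F ev (k + w)
      (fun i => ⟨_, a (Fin.append t z i)⟩) hH hF).1.1 (by
        have e := hi.comp (fun i => (finSumFinEquiv.symm i).swap)
          (Sum.swap_leftInverse.injective.comp finSumFinEquiv.symm.injective)
        refine (congrArg (fun u : Fin (k + w) → F => AlgebraicIndependent ℂ u)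
          (funext fun i => ?_)).mp e
        rw [ha]
        induction i using Fin.addCases <;> simp)
    obtain ⟨f1, j, ε, f2⟩ := hFIB n M D.H b k w (fun o => fn (o.elim ⟨0, r⟩ t)) (fun i => fn (z i))
      D.kae (fun o => by cases o; exacts [h0, ht _]) hz ⟨x, by
        refine Eq.subst (motive := fun u => SIE.Rk M u x) (funext fun i => ?_) hx
        induction i using Fin.addCases <;> simp⟩
    exact ⟨j, ε, f1, f2⟩
  · choose t t1 t2 t3 using fun i => hEX1 n M D.H b _ hH (hg i)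
    exact dom (DK.rho hA D b.B b.nb.le hb _ t t1 t2 t3)
  · obtain ⟨c, q, Q, v, h1, h2, h3⟩ := hVAL n M D.H b ι _ hH hg
      (hRAT n M D.H A F ev b G R fn ι g m hi)
    exact ⟨c, q, Q, v, h1, h2, fun x a f κ e _ hf k0 ke hJ => ⟨f, h3 x a f κ e hf.1 k0 ke hJ, hf.2⟩⟩

theorem core (hA : HS.St_AUBIN) (hCRM : St_CRM) (hPSI : KT.St_PSI) (hST1 : St_ST1) (hBS : St_BS)
    (hCHG : KT.St_CHG) (hSYS : St_SYS) (hMOD : St_MOD) (hRK : St_RK) (hFIB : St_FIB)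
    (hRAT : KT.St_RAT) (hVAL : St_VAL) (hEX1 : St_EX1) (hFIN : KT.St_FIN) (hEF : St_EF)
    (hFG : St_FG) (hHYP : St_HYP) (hEQA : St_EQA) (hDGA : St_DGA) (hCUA : St_CUA) (hG : St_GMK)
    (hTOP : KC.St_TOP) (n : ℕ) (M : Mf n) [M.Cpt] (I : Type) [Fintype I] (D : Dk M I)
    (h : {a | ∃ W, Tw M (fun e e' x => La (M.J e e' x)) a W ∧
      M.All fun e z => W e z ≠ 0 → e.symm z ∈ KBO.of D}.Infinite) :
    ∃ m, 0 < m ∧ ∃ t, M.HSec m t ∧ ∃ e ∈ M.C, ∃ z ∈ e.target, t e z ≠ 0 := by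
  have hH := D.kae.toMet
  obtain ⟨N, a, s, h1, h2⟩ := hCRM n M _ h
  obtain ⟨b₀, h3⟩ := hPSI n M D.H N a s hH h1
  obtain ⟨A, F, _, _, ev, b, G, c, k1, k2, k3, k4, k5, k6, k7⟩ := hST1 n M D.H b₀ D.kae
  obtain ⟨B, ⟨b', ok, rfl⟩, x, x0, g, g1, g2⟩ := top hEF hFG hHYP hEQA hDGA hCUA hG hTOP k5 k7 k6
    (fun B => ∃ (b' : Ba M D.H) (ok : b'.Ok), b'.bs ok = B) fun τ _ g => by
      obtain ⟨b', q, m, c1, c2, c3⟩ := hCHG n M D.H A F ev b G τ g hH k1 k4 k6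
      obtain ⟨G', c4, -⟩ := hSYS n M D.H A F ev b' hH k1
      obtain ⟨c5, c6, c7⟩ := c3 G' c4
      obtain ⟨R, fn, md⟩ := hMOD n M D.H A F ev b' G' hH k1 c4 fun f => by
        obtain ⟨a, r, r1, r2, r3⟩ := k6 f
        exact ⟨a, r, c6 _ _ r1, r2, c6 _ _ r3⟩
      have ok := hBS n M D.H b' D.kae
      exact ⟨b'.bs ok, b'.fd ok md, q, m, c2, c5, c6, c7, good hA hRK hFIB hRAT hVAL hEX1 D k1
        (fun y hy => h2 y (h3 y (k3 (c1 hy)))) ok md, b', ok, rfl⟩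
  exact ⟨_, Nat.mul_pos x0 b'.d0, hFIN n M D.H b' x g hH g1 g2⟩

end Pool.Agent.Lib.KA
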