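import Pool.Agent.Lib.KC.Blue
import Pool.Agent.Lib.KC.B_CUA

/-! Project kb: the glue between the field theory and the analytic core. -/

open scoped Classical Topology ENNReal
open Set MeasureTheory Complex Filter

noncomputable section

namespace Pool.Agent.Lib.KA

open Pool.Agent.Lib.SV (E nsq)
open Pool.Agent.Lib.HS32 Pool.Agent.Lib.KH Pool.Agent.Lib.KBE Pool.Agent.Lib.KC
open MvPolynomial (aeval)

section alg

variable {F : Type} [Field F] [Algebra ℂ F] {G G' : ℕ → ℕ → Submodule ℂ F} {m : ℕ} {q : F}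

theorem deg_up (h : ∀ x c, ∀ u ∈ G' x c, q ^ c * u ∈ G x (m * c)) (q0 : q ≠ 0)
    {K : IntermediateField ℂ F} {τ : Type} {g : τ → F} (hD : Deg K G g) : Deg K G' g := fun c => by
  obtain ⟨n, hn⟩ := hD (m * c)
  refine ⟨n, fun x u hu v hv v0 => ?_⟩
  obtain ⟨p, r, h1, h2, h3, h4⟩ := hn x _ (h x c u hu) _ (h x c v hv)
    (mul_ne_zero (pow_ne_zero _ q0) v0)
  exact ⟨p, r, h1, h2, h3, mul_left_cancel₀ (pow_ne_zero c q0) (by
    rw [← mul_assoc, ← mul_assoc, h4])⟩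

theorem cut_le (h : ∀ x c, G x c ≤ G' x c) {R : Subalgebra ℂ F} {τ : Type} {s : τ → R} {l n : ℕ}
    (hC : Cut G R s l n) : Cut G' R s l n := by
  obtain ⟨Q, Om, e, h1, h2, h3, h4⟩ := hC
  refine ⟨Q, Om, e, h _ _ h1, h2, h3, fun p hp => ?_⟩
  obtain ⟨M, N, H, d, k1, k2⟩ := h4 p hp
  exact ⟨M, N, H, d, fun j => h _ _ (k1 j), k2⟩

theorem range_elim {F : Type} {w : ℕ} (z : Fin w → F) (θ : F) :
    range (fun o : Option (Fin w) => o.elim θ z) = insert θ (range z) := by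
  ext f
  refine ⟨?_, ?_⟩
  · rintro ⟨_ | i, rfl⟩
    exacts [Or.inl rfl, Or.inr ⟨i, rfl⟩]
  · rintro (rfl | ⟨i, rfl⟩)
    exacts [⟨none, rfl⟩, ⟨some i, rfl⟩]

theorem gen2 {K : IntermediateField ℂ F} {S T : Set F} (h1 : IntermediateField.adjoin ℂ S = K)
    (h2 : IntermediateField.adjoin K T = ⊤) : IntermediateField.adjoin ℂ (S ∪ T) = ⊤ := by
  subst h1
  rw [← IntermediateField.adjoin_adjoin_left, h2]
  rfl

end alg

variable {n : ℕ} {M : Mf n} {F : Type} [Field F] [Algebra ℂ F]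

/-- The fields of the fibration data that concern the measure. -/
def Psh (B : Bs M) {k w : ℕ} (t : Fin k → M.X → ℂ) (z : Fin w → M.X → ℂ) : Prop :=
  ∃ (j : M.X → ℝ) (ε : ℝ), (∀ᵐ y ∂M.mu B.H, Sub M (fun x => (t · x)) y) ∧ ContinuousOn j B.O ∧
    (∀ y ∈ B.O, 0 ≤ j y ∧ j y ≤ B.p y) ∧ 0 < ε ∧ ∫⁻ y in B.O, ng (j y) ε ∂M.mu B.H ≠ ⊤ ∧
    ∃ C : ℝ≥0∞, C ≠ ⊤ ∧ ∀ G : E k × E w → ℝ≥0∞, Measurable G →
      ∫⁻ y in B.O, G ((t · y), (z · y)) * ENNReal.ofReal (j y) ∂M.mu B.H ≤ C * ∫⁻ q, G q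

/-- What the glue needs from the last base. -/
structure Good (B : Bs M) (Φ : Fd B F) : Prop where
  psh : ∀ (k w : ℕ) (t : Fin k → Φ.R) (z : Fin w → Φ.R), (∀ i, B.Gm 0 1 (Φ.fn (t i))) →
    (∀ i, B.Gm 0 1 (Φ.fn (z i))) →
    AlgebraicIndependent ℂ (Sum.elim (fun i => (z i : F)) fun i => (t i : F)) →
    Psh B (fun i => Φ.fn (t i)) fun i => Φ.fn (z i)
  dv : ∀ (ι : Type) [Fintype ι] [Nonempty ι] (g : ι → Φ.R), (∀ i, B.Gm 0 1 (Φ.fn (g i))) →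
    IntermediateField.adjoin ℂ (range fun i => (g i : F)) = ⊤ →
    B.Dom (fun y => 1 + ∑ i, normSq (Φ.fn (g i) y)) ∧
      B.Val fun y => 1 + ∑ i, normSq (Φ.fn (g i) y)

theorem top (hEF : St_EF) (hFG : St_FG) (hHYP : St_HYP) (hEQA : St_EQA) (hDGA : St_DGA)
    (hCUA : St_CUA) (hG : St_GMK) (hTOP : KC.St_TOP) [M.Cpt] [Algebra.EssFiniteType ℂ F]
    {G : ℕ → ℕ → Submodule ℂ F} {c0 : ℕ} (hS : Sys G c0) (hD : Der G) (hF : Frc G)
    (P : Bs M → Prop) (h : ∀ (τ : Type) [Finite τ] (g : τ → F), ∃ (B : Bs M) (Φ : Fd B F) (q : F)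
      (m : ℕ), q ≠ 0 ∧ (∀ i, g i ∈ Φ.G 0 1) ∧ (∀ x c, G x c ≤ Φ.G x c) ∧
        (∀ x c, ∀ u ∈ Φ.G x c, q ^ c * u ∈ G x (m * c)) ∧ Good B Φ ∧ P B) :
    ∃ B : Bs M, P B ∧ ∃ x, 0 < x ∧ ∃ g, B.Gn x 0 g := by
  obtain ⟨K, k1, -, k3, l, k4⟩ := hEF F G c0 hS hD
  obtain ⟨f1, f2⟩ := hFG F K
  have : CharZero K := algebraRat.charZero _
  obtain ⟨k, t, θ₁, P₁, h1⟩ := hHYP ℂ K
  obtain ⟨w, z, θ, P₂, h2⟩ := hHYP K F
  obtain ⟨B, Φ, q, m, q0, q1, b0, b1, b2, b3⟩ := h _ (Sum.elim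
    (fun o : Sx k => ((o.elim θ₁ t : K) : F)) fun o : Option (Fin w) => o.elim θ z)
  choose gR hg using fun i => (Φ.mem _ _ _).1 (q1 i)
  let s : Sx k → Φ.R := fun o => ⟨_, gR (.inl o)⟩
  let zz : Fin w → Φ.R := fun i => ⟨_, gR (.inr (some i))⟩
  let th : Φ.R := ⟨_, gR (.inr none)⟩
  obtain ⟨e1, m1, e2, e3⟩ := hEQA n M B F Φ K k s t θ₁ P₁ h1 rfl fun _ => rfl
  have e4 : IntermediateField.adjoin K (range fun o : Option (Fin w) => o.elim θ z) = ⊤ :=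
    (range_elim z θ).symm ▸ h2.gen
  have e5 : (fun o : Option (Fin w) => ((o.elim th zz : Φ.R) : F)) = fun o => o.elim θ z :=
    funext fun o => by cases o <;> rfl
  obtain ⟨d1, d2⟩ := b2.dv _ (fun i => ⟨_, gR i⟩) hg (by
    rw [← gen2 e1 e4, ← Sum.elim_range]
    rfl)
  obtain ⟨j, ε, p1, p2, p3, p4, p5, p6⟩ := b2.psh k w (fun i => s (some i)) zz
    (fun i => hg (.inl (some i))) (fun i => hg (.inr (some i))) (h1.ind.sumElim_comp h2.ind)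
  have kk := hG n M B
  refine ⟨B, b3, hTOP n M
    { toBs := B, k := k, w := w, s := fun i => Φ.fn (s i), z := fun i => Φ.fn (zz i)
      N := fun y => 1 + ∑ i, normSq (Φ.fn ⟨_, gR i⟩ y), j := j, ε := ε, c0 := c0, l := l, m1 := m1
      hs := fun i => hg (.inl i), hz := fun i => hg (.inr (some i))
      cN := continuousOn_const.add (continuousOn_finsetSum _ fun i _ =>
        continuous_normSq.comp_continuousOn (kk.cnt (hg i)))
      hN := fun y _ => ?_, hm := fun y _ => e2 y, dm := e3, sub := p1, cj := p2, jp := p3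
      ε0 := p4, ij := p5, push := p6, gen := fun x => ?_
      deg := hDGA n M B F Φ K k w s zz th P₂ e1 k1 h2 (fun i => hg (.inl i))
        (fun i => hg (.inr (some i))) (hg (.inr none)) (e5 ▸ deg_up b1 q0 (k3 _ _ e4))
      cut := fun r => hCUA n M B F Φ k l r s (cut_le b0 (k4 r Φ.R _ s (fun f => ?_) e1)) }
    d1 d2⟩
  · rw [Fintype.sum_sum_type]
    exact add_le_add_right (le_add_of_nonneg_right
      (Finset.sum_nonneg fun _ _ => normSq_nonneg _)) _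
  · obtain ⟨g, g1, g0⟩ := hS.gen x
    obtain ⟨r, hr⟩ := (Φ.mem _ _ _).1 (b0 _ _ g1)
    exact ⟨_, hr, CUA.nz Φ fun c => g0 (congrArg Subtype.val c)⟩
  · obtain ⟨b, r, r1, r0, r2⟩ := hF f
    exact ⟨r, ((Φ.mem _ _ _).1 (b0 _ _ r1)).1, r0, ((Φ.mem _ _ _).1 (b0 _ _ r2)).1⟩

end Pool.Agent.Lib.KA
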